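import Pool.Agent.Y462.AR.Stm2

/-!
# Ping-pong for amalgamated products, with a real valued function (the proof of helper547)

Owner helper462; the proof is by helper547 (Pool/Agent/Y547/GE/PP.lean).
-/

set_option autoImplicit false

namespace Pool.Agent.Y462.AR.PPR

open Pool.Agent.Y462.AR
open Pool.Agent.Y462.PA (Am amRel)

section

variable {K A B : Type} [Group K] [Group A] [Group B] (α : K →* A) (β : K →* B)

/-- alternating words, `true` for the words starting with a letter of `A` -/
inductive W : Bool → Am α β → Prop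
  | a0 (a : A) (ha : a ∉ α.range) (c : K) : W true (Am.inl α β a * Am.inl α β (α c))
  | a1 (a : A) (ha : a ∉ α.range) (h : Am α β) (hh : W false h) : W true (Am.inl α β a * h)
  | b0 (b : B) (hb : b ∉ β.range) (c : K) : W false (Am.inr α β b * Am.inl α β (α c))
  | b1 (b : B) (hb : b ∉ β.range) (h : Am α β) (hh : W true h) : W false (Am.inr α β b * h)

variable {α β}

theorem mulA {a : A} (ha : a ∉ α.range) (c : K) : α c * a ∉ α.range := by
  rintro ⟨d, hd⟩
  exact ha ⟨c⁻¹ * d, by rw [map_mul, hd, map_inv, inv_mul_cancel_left]⟩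

theorem scal (c : K) {t : Bool} {h : Am α β} (hh : W α β t h) :
    W α β t (Am.inl α β (α c) * h) := by
  cases hh with
  | a0 a ha d =>
    rw [← mul_assoc, ← map_mul]
    exact W.a0 _ (mulA ha c) d
  | a1 a ha h hh =>
    rw [← mul_assoc, ← map_mul]
    exact W.a1 _ (mulA ha c) h hh
  | b0 b hb d =>
    rw [← mul_assoc, Am.glue, ← map_mul]
    exact W.b0 _ (mulA hb c) d
  | b1 b hb h hh =>
    rw [← mul_assoc, Am.glue, ← map_mul]
    exact W.b1 _ (mulA hb c) h hh

variable (α β)

/-- the elements which are words -/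
def S : Set (Am α β) := {g | (∃ c, g = Am.inl α β (α c)) ∨ W α β true g ∨ W α β false g}

variable {α β}

theorem scalS (c : K) {x : Am α β} (hx : x ∈ S α β) : Am.inl α β (α c) * x ∈ S α β := by
  rcases hx with ⟨d, rfl⟩ | hx | hx
  · left
    exact ⟨c * d, by rw [map_mul, map_mul]⟩
  · exact Or.inr (Or.inl (scal c hx))
  · exact Or.inr (Or.inr (scal c hx))

theorem closA (a : A) {x : Am α β} (hx : x ∈ S α β) : Am.inl α β a * x ∈ S α β := by
  by_cases ha : a ∈ α.range
  · obtain ⟨c, rfl⟩ := ha
    exact scalS c hx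
  · rcases hx with ⟨d, rfl⟩ | hx | hx
    · exact Or.inr (Or.inl (W.a0 a ha d))
    · cases hx with
      | a0 a' ha' d =>
        rw [← mul_assoc, ← map_mul]
        by_cases h : a * a' ∈ α.range
        · obtain ⟨c, hc⟩ := h
          rw [← hc]
          exact scalS c (Or.inl ⟨d, rfl⟩)
        · exact Or.inr (Or.inl (W.a0 _ h d))
      | a1 a' ha' y hy =>
        rw [← mul_assoc, ← map_mul]
        by_cases h : a * a' ∈ α.range
        · obtain ⟨c, hc⟩ := h
          rw [← hc]
          exact scalS c (Or.inr (Or.inr hy))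
        · exact Or.inr (Or.inl (W.a1 _ h y hy))
    · exact Or.inr (Or.inl (W.a1 a ha x hx))

theorem closB (b : B) {x : Am α β} (hx : x ∈ S α β) : Am.inr α β b * x ∈ S α β := by
  by_cases hb : b ∈ β.range
  · obtain ⟨c, rfl⟩ := hb
    rw [← Am.glue]
    exact scalS c hx
  · rcases hx with ⟨d, rfl⟩ | hx | hx
    · exact Or.inr (Or.inr (W.b0 b hb d))
    · exact Or.inr (Or.inr (W.b1 b hb x hx))
    · cases hx with
      | b0 b' hb' d =>
        rw [← mul_assoc, ← map_mul]
        by_cases h : b * b' ∈ β.range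
        · obtain ⟨c, hc⟩ := h
          rw [← hc, ← Am.glue]
          exact scalS c (Or.inl ⟨d, rfl⟩)
        · exact Or.inr (Or.inr (W.b0 _ h d))
      | b1 b' hb' y hy =>
        rw [← mul_assoc, ← map_mul]
        by_cases h : b * b' ∈ β.range
        · obtain ⟨c, hc⟩ := h
          rw [← hc, ← Am.glue]
          exact scalS c (Or.inr (Or.inl hy))
        · exact Or.inr (Or.inr (W.b1 _ h y hy))

theorem mulS (g : Am α β) : ∀ x ∈ S α β, g * x ∈ S α β := by
  obtain ⟨y, rfl⟩ := QuotientGroup.mk'_surjective (Subgroup.normalClosure (amRel α β)) g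
  induction y using Monoid.Coprod.induction_on with
  | inl a => exact fun x hx => closA a hx
  | inr b => exact fun x hx => closB b hx
  | mul x y hx hy =>
    intro z hz
    have h1 := hx _ (hy z hz)
    rw [← mul_assoc] at h1
    exact h1

theorem allS (g : Am α β) : g ∈ S α β := by
  have h1 := mulS g 1 (Or.inl ⟨1, by rw [map_one, map_one]⟩)
  rwa [mul_one] at h1

end

theorem t_ppr : S_PPR := by
  intro K A B Ω _ _ _ α β f XA XB D hdis hXA hXB hA hB hcA hcB hk
  have key : ∀ (t : Bool) (g : Am α β), W α β t g →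
      (t = true → (∀ v ∈ XA, f g v ∈ XA ∧ D v < D (f g v)) ∨
        (∀ v ∈ XB, f g v ∈ XA ∧ D v ≤ D (f g v))) ∧
      (t = false → (∀ v ∈ XA, f g v ∈ XB ∧ D v < D (f g v)) ∨
        (∀ v ∈ XB, f g v ∈ XB ∧ D v < D (f g v))) := by
    intro t g hg
    induction hg with
    | a0 a ha c =>
      refine ⟨fun _ => Or.inr ?_, fun h => by simp at h⟩
      intro v hv
      rw [map_mul, Equiv.Perm.mul_apply]
      obtain ⟨h1, h2⟩ := hcB c v hv
      obtain ⟨h3, h4⟩ := hA a ha _ h1
      rw [h2] at h4
      exact ⟨h3, h4⟩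
    | a1 a ha h hh ih =>
      refine ⟨fun _ => ?_, fun h => by simp at h⟩
      rcases ih.2 rfl with h1 | h1
      · left
        intro v hv
        rw [map_mul, Equiv.Perm.mul_apply]
        obtain ⟨h2, h3⟩ := h1 v hv
        obtain ⟨h4, h5⟩ := hA a ha _ h2
        exact ⟨h4, lt_of_lt_of_le h3 h5⟩
      · right
        intro v hv
        rw [map_mul, Equiv.Perm.mul_apply]
        obtain ⟨h2, h3⟩ := h1 v hv
        obtain ⟨h4, h5⟩ := hA a ha _ h2
        exact ⟨h4, h3.le.trans h5⟩
    | b0 b hb c =>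
      refine ⟨fun h => by simp at h, fun _ => Or.inl ?_⟩
      intro v hv
      rw [map_mul, Equiv.Perm.mul_apply]
      obtain ⟨h1, h2⟩ := hcA c v hv
      obtain ⟨h3, h4⟩ := hB b hb _ h1
      rw [h2] at h4
      exact ⟨h3, h4⟩
    | b1 b hb h hh ih =>
      refine ⟨fun h => by simp at h, fun _ => ?_⟩
      rcases ih.1 rfl with h1 | h1
      · left
        intro v hv
        rw [map_mul, Equiv.Perm.mul_apply]
        obtain ⟨h2, h3⟩ := h1 v hv
        obtain ⟨h4, h5⟩ := hB b hb _ h2
        exact ⟨h4, h3.trans h5⟩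
      · right
        intro v hv
        rw [map_mul, Equiv.Perm.mul_apply]
        obtain ⟨h2, h3⟩ := h1 v hv
        obtain ⟨h4, h5⟩ := hB b hb _ h2
        exact ⟨h4, lt_of_le_of_lt h3 h5⟩
  obtain ⟨va, hva⟩ := hXA
  obtain ⟨vb, hvb⟩ := hXB
  rw [injective_iff_map_eq_one]
  intro g hg
  have hfix : ∀ v, f g v = v := by
    intro v
    rw [hg]
    rfl
  rcases allS g with ⟨c, rfl⟩ | h | h
  · rw [hk c hg, map_one, map_one]
  · exfalso
    rcases (key true g h).1 rfl with h1 | h1
    · have h2 := (h1 va hva).2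
      rw [hfix] at h2
      exact lt_irrefl _ h2
    · have h2 := (h1 vb hvb).1
      rw [hfix] at h2
      exact Set.disjoint_left.mp hdis h2 hvb
  · exfalso
    rcases (key false g h).2 rfl with h1 | h1
    · have h2 := (h1 va hva).1
      rw [hfix] at h2
      exact Set.disjoint_left.mp hdis hva h2
    · have h2 := (h1 vb hvb).2
      rw [hfix] at h2
      exact lt_irrefl _ h2

end Pool.Agent.Y462.AR.PPR
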