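import Pool.Agent.Y462.AR.Glue

/-!
# Artin groups with a two-degenerate defining graph

Owner helper462.
-/

set_option autoImplicit false

namespace Pool.Agent.Y462.AR.Glue

open Pool.Agent.Y462.AR
open Pool.Agent.Y110.FJ (ClosedE)

variable {C : ∀ (G : Type) [Group G], Prop} {Lab : ℕ → Prop}

/-- the labels of a triangle -/
def triM (k l m : ℕ) (i j : Fin 3) : ℕ :=
  if i.val + j.val = 1 then k else if i.val + j.val = 3 then l else m

/-- the hypothesis on the triangles -/
def Tri (C : ∀ (G : Type) [Group G], Prop) {V : Type} (M : V → V → ℕ) : Prop :=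
  ∀ a b c : V, a ≠ b → b ≠ c → a ≠ c → M a b ≠ 0 → M b c ≠ 0 → M a c ≠ 0 →
    C (Art (Fin 3) (triM (M a b) (M b c) (M a c)))

theorem Tri.sub {V : Type} {M : V → V → ℕ} (h : Tri C M) (U : Set V) :
    Tri C (fun s t : U => M s t) := by
  intro a b c h1 h2 h3 h4 h5 h6
  exact h a b c (fun h => h1 (Subtype.ext h)) (fun h => h2 (Subtype.ext h))
    (fun h => h3 (Subtype.ext h)) h4 h5 h6

theorem crys_sub {V : Type} {M : V → V → ℕ} (h : Crys Lab M) (U : Set V) :
    Crys Lab (fun s t : U => M s t) :=
  ⟨fun s t => h.1 s t, fun s t hst => h.2 s t fun h => hst (Subtype.ext h)⟩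

theorem three_zero (hP : Parts C Lab) (hC : ClosedE C) (V : Type) [Finite V] (M : V → V → ℕ)
    (hM : Crys Lab M) (p q v : V) (h1 : p ≠ q) (h2 : q ≠ v) (h3 : p ≠ v)
    (hU : ∀ x, x = p ∨ x = q ∨ x = v) (h0 : M p q = 0) : C (Art V M) := by
  have hI : ({p, v} : Set V) ∩ {q, v} = {v} := by
    ext x
    simp only [Set.mem_inter_iff, Set.mem_insert_iff, Set.mem_singleton_iff]
    constructor
    · rintro ⟨rfl | h, h' | h'⟩
      · exact absurd h' h1
      · exact h'
      · exact h
      · exact h
    · intro h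
      exact ⟨Or.inr h, Or.inr h⟩
  have hc : ∀ a : V, a ≠ v → Nat.card ({a, v} : Set V) = 2 := fun a ha => by
    rw [Nat.card_coe_set_eq, Set.ncard_pair ha]
  refine glue_le hP hC 1 V M hM {p, v} {q, v} ?_ ?_ ?_ ?_ ?_
  · ext x
    simp only [Set.mem_union, Set.mem_insert_iff, Set.mem_singleton_iff, Set.mem_univ, iff_true]
    rcases hU x with h | h | h
    · exact Or.inl (Or.inl h)
    · exact Or.inr (Or.inl h)
    · exact Or.inl (Or.inr h)
  · rw [hI, Set.ncard_singleton]
  · rintro s ⟨hs1, hs2⟩ t ⟨ht1, ht2⟩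
    have hs : s = p := by
      rcases hs1 with h | h
      · exact h
      · exact absurd (Or.inr h) hs2
    have ht : t = q := by
      rcases ht1 with h | h
      · exact h
      · exact absurd (Or.inr h) ht2
    rw [hs, ht, h0]
  · exact C_card_two hP hC _ _ (crys_sub hM _) (hc p h3)
  · exact C_card_two hP hC _ _ (crys_sub hM _) (hc q h2)

theorem three (hP : Parts C Lab) (hC : ClosedE C) (V : Type) [Finite V] (M : V → V → ℕ)
    (hM : Crys Lab M) (hT : Tri C M) (h : Nat.card V ≤ 3) : C (Art V M) := by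
  rcases Nat.lt_or_ge (Nat.card V) 3 with h1 | h1
  · exact C_card_le hP hC (2 - Nat.card V) V M hM (by omega)
  have h3 : Nat.card V = 3 := le_antisymm h h1
  have h4 : Nat.card (Fin 3) = Nat.card V := by
    rw [h3, Nat.card_eq_fintype_card, Fintype.card_fin]
  obtain ⟨e⟩ : Nonempty (Fin 3 ≃ V) := ⟨(Finite.equivFinOfCardEq h3).symm⟩
  have e01 : e 0 ≠ e 1 := fun h => absurd (e.injective h) (by decide)
  have e12 : e 1 ≠ e 2 := fun h => absurd (e.injective h) (by decide)
  have e02 : e 0 ≠ e 2 := fun h => absurd (e.injective h) (by decide)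
  have hU : ∀ x, x = e 0 ∨ x = e 1 ∨ x = e 2 := by
    intro x
    obtain ⟨i, rfl⟩ := e.surjective x
    fin_cases i
    · exact Or.inl rfl
    · exact Or.inr (Or.inl rfl)
    · exact Or.inr (Or.inr rfl)
  by_cases k1 : M (e 0) (e 1) = 0
  · exact three_zero hP hC V M hM (e 0) (e 1) (e 2) e01 e12 e02 hU k1
  by_cases k2 : M (e 1) (e 2) = 0
  · exact three_zero hP hC V M hM (e 1) (e 2) (e 0) e12 e02.symm e01.symm
      (fun x => by rcases hU x with h | h | h <;> simp [h]) k2
  by_cases k3 : M (e 0) (e 2) = 0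
  · exact three_zero hP hC V M hM (e 0) (e 2) (e 1) e02 e12.symm e01
      (fun x => by rcases hU x with h | h | h <;> simp [h]) k3
  have h5 := hT (e 0) (e 1) (e 2) e01 e12 e02 k1 k2 k3
  obtain ⟨f, hf⟩ := relabel M (triM (M (e 0) (e 1)) (M (e 1) (e 2)) (M (e 0) (e 2))) e.symm (by
    intro s t hst
    obtain ⟨i, rfl⟩ := e.surjective s
    obtain ⟨j, rfl⟩ := e.surjective t
    rw [e.symm_apply_apply, e.symm_apply_apply]
    have hij : i ≠ j := fun h => hst (congrArg e h)
    have m10 := hM.1 (e 1) (e 0)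
    have m21 := hM.1 (e 2) (e 1)
    have m20 := hM.1 (e 2) (e 0)
    fin_cases i <;> fin_cases j
    · exact absurd rfl hij
    · rfl
    · rfl
    · exact m10
    · exact absurd rfl hij
    · rfl
    · exact m20
    · exact m21
    · exact absurd rfl hij)
  exact hC.base.of_injective _ _ f hf h5

/-- two-degenerate graphs -/
theorem degen (hP : Parts C Lab) (hC : ClosedE C) (n : ℕ) : ∀ (V : Type) [Finite V]
    (M : V → V → ℕ) (_ : Crys Lab M) (r : V → ℕ) (_ : Function.Injective r)
    (_ : ∀ v, {u | r u < r v ∧ M u v ≠ 0}.ncard ≤ 2) (_ : Tri C M) (_ : Nat.card V ≤ n),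
    C (Art V M) := by
  induction n with
  | zero => exact fun V _ M hM r _ _ hT hn => three hP hC V M hM hT (by omega)
  | succ n ih =>
    intro V _ M hM r hr hdeg hT hn
    rcases Nat.lt_or_ge 3 (Nat.card V) with h3 | h3
    swap
    · exact three hP hC V M hM hT h3
    have : Nonempty V := by
      by_contra h
      rw [not_nonempty_iff] at h
      rw [Nat.card_of_isEmpty] at h3
      omega
    obtain ⟨v, hv⟩ := Finite.exists_max r
    have hlt : ∀ u, u ≠ v → r u < r v := fun u hu =>
      lt_of_le_of_ne (hv u) fun h => hu (hr h)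
    have hvN : v ∉ {u | r u < r v ∧ M u v ≠ 0} := fun h => lt_irrefl _ h.1
    have hI : ({v}ᶜ : Set V) ∩ insert v {u | r u < r v ∧ M u v ≠ 0} =
        {u | r u < r v ∧ M u v ≠ 0} := by
      ext x
      constructor
      · rintro ⟨h1, h2 | h2⟩
        · exact absurd h2 h1
        · exact h2
      · intro h
        refine ⟨?_, Or.inr h⟩
        intro h1
        rw [Set.mem_singleton_iff] at h1
        rw [h1] at h
        exact hvN h
    have hcard := hdeg v
    refine glue_le hP hC (2 - {u | r u < r v ∧ M u v ≠ 0}.ncard) V M hM {v}ᶜ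
      (insert v {u | r u < r v ∧ M u v ≠ 0}) ?_ ?_ ?_ ?_ ?_
    · ext x
      simp only [Set.mem_union, Set.mem_univ, iff_true]
      by_cases h : x = v
      · exact Or.inr (Or.inl h)
      · exact Or.inl h
    · rw [hI]
      omega
    · rintro s ⟨hs1, hs2⟩ t ⟨_, ht2⟩
      have ht : t = v := by
        by_contra h
        exact ht2 h
      have hs : s ≠ v := hs1
      by_contra h
      rw [ht] at h
      exact hs2 (Or.inr ⟨hlt s hs, h⟩)
    · refine ih _ _ (crys_sub hM _) (fun u => r u.1) (fun a b h => Subtype.ext (hr h)) ?_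
        (hT.sub _) ?_
      · intro w
        refine le_trans ?_ (hdeg w.1)
        rw [← Set.ncard_image_of_injective _ Subtype.val_injective]
        apply Set.ncard_le_ncard
        · rintro _ ⟨u, hu, rfl⟩
          exact hu
        · exact Set.toFinite _
      · rw [Nat.card_coe_set_eq]
        have h1 := Set.ncard_add_ncard_compl ({v} : Set V)
        rw [Set.ncard_singleton] at h1
        omega
    · refine three hP hC _ _ (crys_sub hM _) (hT.sub _) ?_
      rw [Nat.card_coe_set_eq]
      refine (Set.ncard_insert_le _ _).trans ?_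
      omega

end Pool.Agent.Y462.AR.Glue
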