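import Pool.Agent.Y462.AR.Rep2
import Pool.Agent.Y462.AR.Deg
import Pool.Agent.Y462.EI.Parts
import Pool.Agent.Y249.AR.Pow
import Pool.Agent.Y331.AR.Actg
import Pool.Agent.Y79.AR.U
import Pool.Agent.Y67.AR.Odd
import Pool.Agent.Y410.AR.Lat
import Pool.Agent.Y764.AR.Zero
import Pool.Agent.Y340.AR.Even
import Pool.Agent.Y383.AR.Cgl
import Pool.Agent.Y349.AR.Ama

/-!
# Artin groups glued along at most two generators

Owner helper462; helpers 249, 331, 79, 67, 410, 764, 340, 383, 349 (and 547 for the ping-pong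
lemma).
-/

set_option autoImplicit false

namespace Pool.Agent.Y462.AR

open Pool.Agent.Y110.FJ (ClosedE)
open Pool.Agent.Y462.AR.Glue (Crys Parts triM Tri)

theorem pow_ : S_POW := Pool.Agent.Y249.AR.t_pow Pool.Agent.Y79.AR.t_u

theorem dg_ (m : ℕ) (h1 : m ≠ 1) (h2 : m ≠ 2) : S_DG m := by
  by_cases h0 : m = 0
  · rw [h0]
    exact Pool.Agent.Y764.AR.t_zero
  obtain ⟨k, hk | hk⟩ := Nat.even_or_odd' m
  · rw [hk]
    exact Pool.Agent.Y340.AR.t_even Pool.Agent.Y79.AR.t_u pow_ k (by omega)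
  · rw [hk]
    exact Pool.Agent.Y67.AR.t_odd Pool.Agent.Y79.AR.t_u pow_ k (by omega)

theorem parts_ (C : ∀ (G : Type) [Group G], Prop) (hC : ClosedE C)
    (hGL : ∀ n : ℕ, C (Matrix.GeneralLinearGroup (Fin n) ℤ)) : Parts C (fun m => m ≠ 1) where
  tgt := G.target dg_ Pool.Agent.Y383.AR.t_di2
    (Pool.Agent.Y331.AR.t_actg Pool.Agent.Y79.AR.t_u pow_) Pool.Agent.Y410.AR.t_lat C hC.base hGL
  zero := zero_ne_one
  ama := Pool.Agent.Y349.AR.t_ama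
  w := Pool.Agent.Y462.EI.w_
  ha := Pool.Agent.Y462.EI.ha_
  tla := Pool.Agent.Y462.EI.tla_
  qa := Pool.Agent.Y462.EI.qa_

/-- gluing along at most two generators -/
theorem artin_glue (C : ∀ (G : Type) [Group G], Prop) (hC : ClosedE C)
    (hGL : ∀ n : ℕ, C (Matrix.GeneralLinearGroup (Fin n) ℤ))
    (V : Type) [Finite V] (M : V → V → ℕ) (hsym : ∀ s t, M s t = M t s)
    (hlab : ∀ s t, s ≠ t → M s t ≠ 1) (V1 V2 : Set V) (hU : V1 ∪ V2 = Set.univ)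
    (hI : (V1 ∩ V2).ncard ≤ 2) (h0 : ∀ s ∈ V1 \ V2, ∀ t ∈ V2 \ V1, M s t = 0)
    (hC1 : C (Art V1 (fun s t => M s t))) (hC2 : C (Art V2 (fun s t => M s t))) :
    C (Art V M) :=
  Glue.glue_le (parts_ C hC hGL) hC (2 - (V1 ∩ V2).ncard) V M ⟨hsym, hlab⟩ V1 V2 hU (by omega) h0
    hC1 hC2

/-- two-degenerate graphs -/
theorem artin_degen (C : ∀ (G : Type) [Group G], Prop) (hC : ClosedE C)
    (hGL : ∀ n : ℕ, C (Matrix.GeneralLinearGroup (Fin n) ℤ))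
    (V : Type) [Finite V] (M : V → V → ℕ) (hsym : ∀ s t, M s t = M t s)
    (hlab : ∀ s t, s ≠ t → M s t ≠ 1) (r : V → ℕ) (hr : Function.Injective r)
    (hdeg : ∀ v, {u | r u < r v ∧ M u v ≠ 0}.ncard ≤ 2)
    (htri : ∀ a b c : V, a ≠ b → b ≠ c → a ≠ c → M a b ≠ 0 → M b c ≠ 0 → M a c ≠ 0 →
      C (Art (Fin 3) (triM (M a b) (M b c) (M a c)))) :
    C (Art V M) :=
  Glue.degen (parts_ C hC hGL) hC (Nat.card V) V M ⟨hsym, hlab⟩ r hr hdeg htri le_rfl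

end Pool.Agent.Y462.AR
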