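import Pool.Agent.Y462.AR.Rep
import Pool.Agent.Y462.EI.Main

/-!
# Artin groups glued along two generators: assembly

Owner helper462.
-/

set_option autoImplicit false

namespace Pool.Agent.Y462.AR

open Pool.Agent.Y462.PA (Am S_TLA)
open Pool.Agent.Y462.SS (Closed)
open Pool.Agent.Y110.FJ (ClosedE)
open Pool.Agent.Y462.EI (S_W S_HA S_QA)

variable {C : ∀ (G : Type) [Group G], Prop}

/-- relabelling is injective -/
theorem relabel {V W : Type} (M : V → V → ℕ) (N : W → W → ℕ) (e : V ≃ W)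
    (h : ∀ s t, s ≠ t → M s t = N (e s) (e t)) :
    ∃ f : Art V M →* Art W N, Function.Injective f := by
  obtain ⟨f, hf⟩ := t_lift V (Art W N) M (fun s => gen N (e s)) (by
    intro s t hst
    by_cases hs : s = t
    · rw [hs]
    rw [h s t hs] at hst ⊢
    exact t_rel W N (e s) (e t) hst)
  obtain ⟨g, hg⟩ := t_lift W (Art V M) N (fun s => gen M (e.symm s)) (by
    intro s t hst
    by_cases hs : s = t
    · rw [hs]
    have h1 : N s t = M (e.symm s) (e.symm t) := by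
      rw [h _ _ (fun h2 => hs (e.symm.injective h2)), e.apply_symm_apply, e.apply_symm_apply]
    rw [h1] at hst ⊢
    exact t_rel V M (e.symm s) (e.symm t) hst)
  have h2 : g.comp f = MonoidHom.id _ := hom_ext fun s => by
    rw [MonoidHom.comp_apply, hf, hg, e.symm_apply_apply, MonoidHom.id_apply]
  exact ⟨f, Function.LeftInverse.injective (g := g) fun x => DFunLike.congr_fun h2 x⟩

/-- the statements which are used -/
structure Parts : Prop where
  act : S_ACT
  d0 : S_DIH 0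
  d3 : S_DIH 3
  d4 : S_DIH 4
  d6 : S_DIH 6
  di2 : S_DI2
  cgl : S_CGL
  ama : S_AMA
  w : S_W
  ha : S_HA
  tla : S_TLA
  qa : S_QA

/-- the labels -/
def Crys {V : Type} (M : V → V → ℕ) : Prop :=
  (∀ s t, M s t = M t s) ∧
    ∀ s t, s ≠ t → M s t = 0 ∨ M s t = 2 ∨ M s t = 3 ∨ M s t = 4 ∨ M s t = 6

/-- a homomorphism to a group in the class which is injective on two generators -/
theorem target (hP : Parts) (hC : ClosedE C)
    (hGL : ∀ n : ℕ, C (Matrix.GeneralLinearGroup (Fin n) ℤ))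
    (V : Type) [Finite V] (M : V → V → ℕ) (hM : Crys M) :
    ∃ (P : Type) (_ : Group P) (F : Art V M →* P), C P ∧ ∀ (s t : V), s ≠ t →
      ∀ ι : D (M s t) →* Art V M, ι (gen _ false) = gen M s → ι (gen _ true) = gen M t →
        Function.Injective (F.comp ι) := by
  have := Fintype.ofFinite V
  let _ : LinearOrder V := LinearOrder.lift' (Fintype.equivFin V) (Fintype.equivFin V).injective
  obtain ⟨ρ, hρ⟩ := hP.act V M hM.1 hM.2
  obtain ⟨len, hlen⟩ := t_lift V (Multiplicative ℤ) M (fun _ => Multiplicative.ofAdd 1)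
    (fun _ _ _ => rfl)
  refine ⟨((Option V → ℤ) ≃ₗ[ℤ] (Option V → ℤ)) × Multiplicative ℤ, inferInstance, ρ.prod len,
    hC.base.prod _ _ (hP.cgl C hC.base hGL V) hC.base.int, ?_⟩
  intro s t hst ι h1 h2
  rw [injective_iff_map_eq_one]
  intro g hg
  have h3 := Prod.ext_iff.1 hg
  exact inj_two hP.d0 hP.d3 hP.d4 hP.d6 hP.di2 hM.1 hM.2 hst ρ hρ len hlen ι h1 h2 g h3.1 h3.2

/-- gluing along two generators -/
theorem glue_two (hP : Parts) (hC : ClosedE C)
    (hGL : ∀ n : ℕ, C (Matrix.GeneralLinearGroup (Fin n) ℤ))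
    (V : Type) [Finite V] (M : V → V → ℕ) (hM : Crys M) (V1 V2 : Set V) (s0 t0 : V)
    (hne : s0 ≠ t0) (hU : V1 ∪ V2 = Set.univ) (hI : V1 ∩ V2 = {s0, t0})
    (h0 : ∀ s ∈ V1 \ V2, ∀ t ∈ V2 \ V1, M s t = 0)
    (hC1 : C (Art V1 (fun s t => M s t))) (hC2 : C (Art V2 (fun s t => M s t))) :
    C (Art V M) := by
  obtain ⟨P, _, F, hCP, hF⟩ := target hP hC hGL V M hM
  have hs : s0 ∈ V1 ∩ V2 := by
    rw [hI]
    exact Or.inl rfl
  have ht : t0 ∈ V1 ∩ V2 := by
    rw [hI]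
    exact Or.inr rfl
  have hα : ∀ (U : Set V) (hs : s0 ∈ U) (ht : t0 ∈ U),
      ∃ (α : D (M s0 t0) →* Art U (fun s t => M s t)) (i : Art U (fun s t => M s t) →* Art V M),
        α (gen _ false) = gen _ ⟨s0, hs⟩ ∧ α (gen _ true) = gen _ ⟨t0, ht⟩ ∧
        ∀ s : U, i (gen _ s) = gen M s := by
    intro U hs ht
    obtain ⟨α, hα⟩ := t_lift Bool (Art U (fun s t => M s t)) (fun _ _ => M s0 t0)
      (fun c => if c then gen _ ⟨t0, ht⟩ else gen _ ⟨s0, hs⟩) (by
        intro c c' hm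
        have h1 := t_rel U (fun s t => M s t) ⟨s0, hs⟩ ⟨t0, ht⟩ hm
        cases c <;> cases c'
        · rfl
        · exact h1
        · exact h1.symm
        · rfl)
    obtain ⟨i, hi⟩ := t_lift U (Art V M) (fun s t => M s t) (fun s => gen M s)
      (fun s t hst => t_rel V M s t hst)
    exact ⟨α, i, hα false, hα true, hi⟩
  obtain ⟨α, i1, hα1, hα2, hi1⟩ := hα V1 hs.1 ht.1
  obtain ⟨β, i2, hβ1, hβ2, hi2⟩ := hα V2 hs.2 ht.2
  have h1 : i1.comp α = i2.comp β := by
    apply hom_ext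
    intro c
    cases c
    · rw [MonoidHom.comp_apply, MonoidHom.comp_apply, hα1, hβ1, hi1, hi2]
    · rw [MonoidHom.comp_apply, MonoidHom.comp_apply, hα2, hβ2, hi1, hi2]
  have h2 := hF s0 t0 hne (i1.comp α) (by rw [MonoidHom.comp_apply, hα1, hi1])
    (by rw [MonoidHom.comp_apply, hα2, hi1])
  have h3 : C (Am α β) := Pool.Agent.Y462.EI.edge α β (F.comp i1) (F.comp i2) hC hP.w hP.ha
    hP.tla hP.qa hCP hC1 hC2
    (fun c => congrArg F (DFunLike.congr_fun h1 c)) h2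
  obtain ⟨j, hj⟩ := hP.ama V M V1 V2 s0 t0 hs.1 hs.2 ht.1 ht.2 hM.1 hU hI h0 α β hα1 hα2 hβ1 hβ2
  exact hC.base.of_injective _ _ j hj h3

end Pool.Agent.Y462.AR
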