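import Pool.Agent.Y462.AR.Main

/-!
# Artin groups glued along at most two generators, two-degenerate graphs

Owner helper462.
-/

set_option autoImplicit false

namespace Pool.Agent.Y462.AR

open Pool.Agent.Y462.SS (Closed)
open Pool.Agent.Y110.FJ (ClosedE)

variable {C : ∀ (G : Type) [Group G], Prop}

/-- one more generator without relations -/
def plus {V : Type} (M : V → V → ℕ) : Option V → Option V → ℕ
  | some a, some b => M a b
  | _, _ => 0

theorem plus_sub {V : Type} (M : V → V → ℕ) :
    ∃ f : Art V M →* Art (Option V) (plus M), Function.Injective f := by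
  obtain ⟨f, hf⟩ := t_lift V (Art (Option V) (plus M)) M (fun s => gen (plus M) (some s))
    (fun s t hst => t_rel (Option V) (plus M) (some s) (some t) hst)
  obtain ⟨g, hg⟩ := t_lift (Option V) (Art V M) (plus M)
    (fun s => match s with
      | some a => gen M a
      | none => 1) (by
    intro s t hst
    cases s with
    | none => exact absurd rfl hst
    | some a =>
      cases t with
      | none => exact absurd rfl hst
      | some b => exact t_rel V M a b hst)
  have h2 : g.comp f = MonoidHom.id _ := hom_ext fun s => by
    rw [MonoidHom.comp_apply, hf, hg, MonoidHom.id_apply]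
  exact ⟨f, Function.LeftInverse.injective (g := g) fun x => DFunLike.congr_fun h2 x⟩

theorem plus_coprod {V : Type} (M : V → V → ℕ) :
    ∃ f : Art (Option V) (plus M) →* Monoid.Coprod (Art V M) (Multiplicative ℤ),
      Function.Injective f := by
  obtain ⟨i, hi⟩ := t_lift V (Art (Option V) (plus M)) M (fun s => gen (plus M) (some s))
    (fun s t hst => t_rel (Option V) (plus M) (some s) (some t) hst)
  obtain ⟨f, hf⟩ := t_lift (Option V) (Monoid.Coprod (Art V M) (Multiplicative ℤ)) (plus M)
    (fun s => match s with
      | some a => Monoid.Coprod.inl (gen M a)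
      | none => Monoid.Coprod.inr (Multiplicative.ofAdd 1)) (by
    intro s t hst
    cases s with
    | none => exact absurd rfl hst
    | some a =>
      cases t with
      | none => exact absurd rfl hst
      | some b =>
        have h := congrArg (Monoid.Coprod.inl (M := Art V M) (N := Multiplicative ℤ))
          (t_rel V M a b hst)
        rw [map_alt, map_alt] at h
        exact h)
  let g : Monoid.Coprod (Art V M) (Multiplicative ℤ) →* Art (Option V) (plus M) :=
    Monoid.Coprod.lift i (zpowersHom _ (gen (plus M) none))
  have h2 : g.comp f = MonoidHom.id _ := hom_ext fun s => by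
    rw [MonoidHom.comp_apply, hf, MonoidHom.id_apply]
    cases s with
    | none =>
      change Monoid.Coprod.lift i (zpowersHom _ (gen (plus M) none))
        (Monoid.Coprod.inr (Multiplicative.ofAdd 1)) = _
      rw [Monoid.Coprod.lift_apply_inr, zpowersHom_apply]
      simp
    | some a =>
      change Monoid.Coprod.lift i (zpowersHom _ (gen (plus M) none))
        (Monoid.Coprod.inl (gen M a)) = _
      rw [Monoid.Coprod.lift_apply_inl, hi]
  exact ⟨f, Function.LeftInverse.injective (g := g) fun x => DFunLike.congr_fun h2 x⟩

theorem C_plus (hC : ClosedE C) {V : Type} (M : V → V → ℕ) (h : C (Art V M)) :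
    C (Art (Option V) (plus M)) := by
  obtain ⟨f, hf⟩ := plus_coprod M
  exact hC.base.of_injective _ _ f hf (hC.base.coprod _ _ h hC.base.int)

theorem Crys.plus {V : Type} {M : V → V → ℕ} (hM : Crys M) : Crys (plus M) := by
  constructor
  · intro s t
    cases s <;> cases t
    · rfl
    · rfl
    · rfl
    · exact hM.1 _ _
  · intro s t hst
    cases s <;> cases t
    · exact Or.inl rfl
    · exact Or.inl rfl
    · exact Or.inl rfl
    · exact hM.2 _ _ (fun h => hst (congrArg some h))

/-- the subset with the new point -/
def up {V : Type} (U : Set V) : Set (Option V) := {x | ∀ a, x = some a → a ∈ U}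

open Classical in
/-- the equivalence -/
noncomputable def upEquiv {V : Type} (U : Set V) : up U ≃ Option U where
  toFun x := match hx : x.1 with
    | none => none
    | some a => some ⟨a, x.2 a hx⟩
  invFun x := match x with
    | none => ⟨none, fun a h => by cases h⟩
    | some a => ⟨some a.1, fun b h => by cases h; exact a.2⟩
  left_inv := by
    rintro ⟨x, hx⟩
    cases x <;> rfl
  right_inv := by
    intro x
    cases x <;> rfl

theorem C_up (hC : ClosedE C) {V : Type} (M : V → V → ℕ) (U : Set V)
    (h : C (Art U (fun s t => M s t))) : C (Art (up U) (fun s t => plus M s t)) := by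
  obtain ⟨f, hf⟩ := relabel (fun s t : up U => plus M s t) (plus (fun s t : U => M s t))
    (upEquiv U) (by
      rintro ⟨s, hs⟩ ⟨t, ht⟩ -
      cases s <;> cases t <;> rfl)
  exact hC.base.of_injective _ _ f hf (C_plus hC _ h)

/-- gluing along at most two generators -/
theorem glue_le (hP : Parts) (hC : ClosedE C)
    (hGL : ∀ n : ℕ, C (Matrix.GeneralLinearGroup (Fin n) ℤ)) (k : ℕ) :
    ∀ (V : Type) [Finite V] (M : V → V → ℕ) (_ : Crys M) (V1 V2 : Set V)
    (_ : V1 ∪ V2 = Set.univ) (_ : (V1 ∩ V2).ncard + k = 2)
    (_ : ∀ s ∈ V1 \ V2, ∀ t ∈ V2 \ V1, M s t = 0)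
    (_ : C (Art V1 (fun s t => M s t))) (_ : C (Art V2 (fun s t => M s t))),
    C (Art V M) := by
  induction k with
  | zero =>
    intro V _ M hM V1 V2 hU hI h0 hC1 hC2
    obtain ⟨s0, t0, hne, hI'⟩ := Set.ncard_eq_two.1 hI
    exact glue_two hP hC hGL V M hM V1 V2 s0 t0 hne hU hI' h0 hC1 hC2
  | succ k ih =>
    intro V _ M hM V1 V2 hU hI h0 hC1 hC2
    obtain ⟨f, hf⟩ := plus_sub M
    refine hC.base.of_injective _ _ f hf ?_
    refine ih (Option V) (plus M) hM.plus (up V1) (up V2) ?_ ?_ ?_ (C_up hC M V1 hC1)
      (C_up hC M V2 hC2)
    · ext x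
      simp only [Set.mem_union, Set.mem_univ, iff_true]
      cases x with
      | none => exact Or.inl fun a h => by cases h
      | some a =>
        have h : a ∈ V1 ∪ V2 := by
          rw [hU]
          trivial
        rcases h with h | h
        · exact Or.inl fun b hb => by cases hb; exact h
        · exact Or.inr fun b hb => by cases hb; exact h
    · have h1 : up V1 ∩ up V2 = insert none (some '' (V1 ∩ V2)) := by
        ext x
        cases x with
        | none =>
          simp only [Set.mem_inter_iff, Set.mem_insert_iff, true_or, iff_true]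
          exact ⟨fun a h => (by cases h), fun a h => (by cases h)⟩
        | some a =>
          simp only [Set.mem_inter_iff, Set.mem_insert_iff, Set.mem_image, reduceCtorEq,
            Option.some.injEq, exists_eq_right, false_or]
          constructor
          · intro h
            exact ⟨h.1 a rfl, h.2 a rfl⟩
          · intro h
            exact ⟨fun b hb => by cases hb; exact h.1, fun b hb => by cases hb; exact h.2⟩
      rw [h1, Set.ncard_insert_of_notMem, Set.ncard_image_of_injective _
        (Option.some_injective _)]
      · omega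
      · simp
    · rintro x ⟨hx1, hx2⟩ y ⟨hy1, hy2⟩
      cases x with
      | none => exact absurd (fun a h => by cases h) hx2
      | some a =>
        cases y with
        | none => exact absurd (fun a h => by cases h) hy2
        | some b =>
          exact h0 a ⟨hx1 a rfl, fun h => hx2 fun c hc => by cases hc; exact h⟩ b
            ⟨hy1 b rfl, fun h => hy2 fun c hc => by cases hc; exact h⟩

/-- two generators -/
theorem C_card_two (hP : Parts) (hC : ClosedE C)
    (hGL : ∀ n : ℕ, C (Matrix.GeneralLinearGroup (Fin n) ℤ)) (V : Type) [Finite V]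
    (M : V → V → ℕ) (hM : Crys M) (h : Nat.card V = 2) : C (Art V M) := by
  obtain ⟨P, _, F, hCP, hF⟩ := target hP hC hGL V M hM
  obtain ⟨s, t, hst, hU⟩ := Nat.card_eq_two_iff.1 h
  obtain ⟨ι, hι⟩ := t_lift Bool (Art V M) (fun _ _ => M s t)
    (fun c => if c then gen M t else gen M s) (by
      intro c c' hm
      have h1 := t_rel V M s t hm
      cases c <;> cases c'
      · rfl
      · exact h1
      · exact h1.symm
      · rfl)
  have h1 := hF s t hst ι (hι false) (hι true)
  refine hC.base.of_injective _ _ F ?_ hCP
  rw [injective_iff_map_eq_one] at h1 ⊢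
  intro g hg
  obtain ⟨d, rfl⟩ : g ∈ ι.range := mem_of_gen ι.range (by
    intro v
    have h2 : v ∈ ({s, t} : Set V) := by
      rw [hU]
      trivial
    rcases h2 with rfl | h2
    · exact ⟨gen _ false, hι false⟩
    · rw [Set.mem_singleton_iff] at h2
      subst h2
      exact ⟨gen _ true, hι true⟩) g
  rw [h1 d hg, map_one]

/-- at most two generators -/
theorem C_card_le (hP : Parts) (hC : ClosedE C)
    (hGL : ∀ n : ℕ, C (Matrix.GeneralLinearGroup (Fin n) ℤ)) (k : ℕ) : ∀ (V : Type) [Finite V]
    (M : V → V → ℕ) (_ : Crys M) (_ : Nat.card V + k = 2), C (Art V M) := by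
  induction k with
  | zero => exact fun V _ M hM h => C_card_two hP hC hGL V M hM h
  | succ k ih =>
    intro V _ M hM h
    obtain ⟨f, hf⟩ := plus_sub M
    refine hC.base.of_injective _ _ f hf (ih (Option V) (plus M) hM.plus ?_)
    rw [Finite.card_option]
    omega

end Pool.Agent.Y462.AR
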