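import Pool.Agent.Y462.AR.Tool

/-!
# Artin groups: the representation is injective on two generators

Owner helper462.
-/

set_option autoImplicit false

namespace Pool.Agent.Y462.AR

section Lin

variable {V : Type} [Fintype V] [LinearOrder V] (M : V → V → ℕ)

theorem sum_two (s p q : V) (x y : ℤ) :
    ∑ t, co M s t * (Pi.single (some p) x + Pi.single (some q) y : Option V → ℤ) (some t) =
      co M s p * x + co M s q * y := by
  have h : ∀ (r : V) (z : ℤ), ∑ t, co M s t * (Pi.single (some r) z : Option V → ℤ) (some t) =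
      co M s r * z := by
    intro r z
    rw [Finset.sum_eq_single r]
    · rw [Pi.single_eq_same]
    · intro t _ ht
      rw [Pi.single_eq_of_ne, mul_zero]
      intro h
      exact ht (Option.some_injective _ h)
    · intro h
      exact absurd (Finset.mem_univ r) h
  rw [← h p x, ← h q y, ← Finset.sum_add_distrib]
  refine Finset.sum_congr rfl fun t _ => ?_
  rw [Pi.add_apply, mul_add]

omit [Fintype V] in
theorem co_self (s : V) : co M s s = 0 := by
  simp [co]

omit [Fintype V] in
theorem co_lt {s t : V} (h : s < t) (h2 : M s t ≠ 2) : co M s t = 1 := by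
  simp [co, h.ne, h, h2]

omit [Fintype V] in
theorem co_gt {s t : V} (h : s < t) : co M t s = - kap (M t s) := by
  simp [co, h.ne', not_lt_of_gt h]

omit [Fintype V] in
theorem co_two {s t : V} (h2 : M s t = 2) : co M s t = 0 := by
  unfold co
  split_ifs <;> simp [kap, h2]

end Lin

/-- the representation is injective on two generators, label not `2` -/
theorem inj_aux {m : ℕ} (hD : S_DIH m) {V : Type} [Fintype V] [LinearOrder V] {M : V → V → ℕ}
    {p q : V} (hpq : p < q) (h1 : M p q = m) (h1' : M q p = m) (hm : m ≠ 2)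
    (ρ : Art V M →* ((Option V → ℤ) ≃ₗ[ℤ] (Option V → ℤ)))
    (hρ : ∀ s w, ρ (gen M s) w = w + Pi.single (some s) (w none + ∑ t, co M s t * w (some t)))
    (len : Art V M →* Multiplicative ℤ) (hlen : ∀ s, len (gen M s) = Multiplicative.ofAdd 1)
    (ι : D m →* Art V M) (b : Bool) (hb : ι (gen _ b) = gen M p)
    (hb' : ι (gen _ (!b)) = gen M q) (g : D m) (hg : ρ (ι g) = 1) (hg' : len (ι g) = 1) :
    g = 1 := by
  obtain ⟨φ, h2, h3, h4⟩ := hD b
  have key : ∀ g : D m, ∀ v : ℤ × ℤ,
      ρ (ι g) (Pi.single (some p) v.1 + Pi.single (some q) v.2 : Option V → ℤ) =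
        Pi.single (some p) (φ g v).1 + Pi.single (some q) (φ g v).2 := by
    let S : Subgroup (D m) :=
      { carrier := {g | ∀ v : ℤ × ℤ,
          ρ (ι g) (Pi.single (some p) v.1 + Pi.single (some q) v.2 : Option V → ℤ) =
            Pi.single (some p) (φ g v).1 + Pi.single (some q) (φ g v).2}
        one_mem' := fun v => by
          rw [map_one, map_one, map_one]
          rfl
        mul_mem' := by
          intro a c ha hc v
          rw [map_mul, map_mul, map_mul, LinearEquiv.mul_apply, hc v, ha]
          rfl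
        inv_mem' := by
          intro a ha v
          have h5 := ha (φ a⁻¹ v)
          have h6 : φ a (φ a⁻¹ v) = v := by
            rw [← Equiv.Perm.mul_apply, ← map_mul, mul_inv_cancel, map_one, Equiv.Perm.one_apply]
          rw [h6] at h5
          rw [← h5, ← LinearEquiv.mul_apply, ← map_mul, ← map_mul, inv_mul_cancel, map_one,
            map_one]
          rfl }
    have hS : ∀ c, gen (fun _ _ => m) c ∈ S := by
      have hp : gen (fun _ _ => m) b ∈ S := by
        rintro ⟨x, y⟩
        rw [hb, hρ, sum_two, h2, co_self, co_lt M hpq (by rw [h1]; exact hm)]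
        rw [Pi.add_apply, Pi.single_eq_of_ne (by simp), Pi.single_eq_of_ne (by simp)]
        simp only [zero_mul, one_mul, zero_add]
        rw [Pi.single_add]
        abel
      have hq : gen (fun _ _ => m) (!b) ∈ S := by
        rintro ⟨x, y⟩
        rw [hb', hρ, sum_two, h3, co_self, co_gt M hpq, h1']
        rw [Pi.add_apply, Pi.single_eq_of_ne (by simp), Pi.single_eq_of_ne (by simp)]
        simp only [zero_mul, add_zero, zero_add]
        rw [sub_eq_add_neg, ← neg_mul, Pi.single_add]
        abel
      intro c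
      rcases Bool.eq_or_eq_not c b with rfl | rfl
      · exact hp
      · exact hq
    intro g
    exact mem_of_gen S hS g
  refine h4 (len.comp ι) ?_ g ?_ hg'
  · intro c
    rcases Bool.eq_or_eq_not c b with rfl | rfl
    · rw [MonoidHom.comp_apply, hb, hlen]
    · rw [MonoidHom.comp_apply, hb', hlen]
  · ext v
    · have h5 := congrFun (key g v) (some p)
      rw [hg] at h5
      have hne : (some p : Option V) ≠ some q := fun h => hpq.ne (Option.some_injective _ h)
      change (Pi.single (some p) v.1 + Pi.single (some q) v.2 : Option V → ℤ) (some p) = _ at h5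
      rw [Pi.add_apply, Pi.add_apply, Pi.single_eq_same, Pi.single_eq_same,
        Pi.single_eq_of_ne hne, Pi.single_eq_of_ne hne, add_zero, add_zero] at h5
      exact h5.symm
    · have h5 := congrFun (key g v) (some q)
      rw [hg] at h5
      have hne : (some q : Option V) ≠ some p := fun h => hpq.ne' (Option.some_injective _ h)
      change (Pi.single (some p) v.1 + Pi.single (some q) v.2 : Option V → ℤ) (some q) = _ at h5
      rw [Pi.add_apply, Pi.add_apply, Pi.single_eq_same, Pi.single_eq_same,
        Pi.single_eq_of_ne hne, Pi.single_eq_of_ne hne, zero_add, zero_add] at h5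
      exact h5.symm

theorem zpow_shift {W : Type} [AddCommGroup W] (T : W ≃ₗ[ℤ] W) (f : ℤ → W)
    (h : ∀ x, T (f x) = f (x + 1)) (n : ℤ) : ∀ x, (T ^ n) (f x) = f (x + n) := by
  induction n using Int.induction_on with
  | zero => intro x; rw [zpow_zero, add_zero]; rfl
  | succ n ih =>
    intro x
    rw [zpow_add_one, LinearEquiv.mul_apply, h, ih]
    congr 1
    ring
  | pred n ih =>
    intro x
    have h1 : T⁻¹ (f x) = f (x - 1) := by
      have h2 := h (x - 1)
      rw [sub_add_cancel] at h2
      rw [← h2, ← LinearEquiv.mul_apply, inv_mul_cancel]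
      rfl
    rw [zpow_sub_one, LinearEquiv.mul_apply, h1, ih]
    congr 1
    ring

/-- the representation is injective on two generators, label `2` -/
theorem inj_two2 (hDI2 : S_DI2) {V : Type} [Fintype V] [LinearOrder V] {M : V → V → ℕ}
    {p q : V} (hpq : p ≠ q) (h1 : M p q = 2) (h1' : M q p = 2)
    (ρ : Art V M →* ((Option V → ℤ) ≃ₗ[ℤ] (Option V → ℤ)))
    (hρ : ∀ s w, ρ (gen M s) w = w + Pi.single (some s) (w none + ∑ t, co M s t * w (some t)))
    (ι : D 2 →* Art V M) (hb : ι (gen _ false) = gen M p)
    (hb' : ι (gen _ true) = gen M q) (g : D 2) (hg : ρ (ι g) = 1) : g = 1 := by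
  obtain ⟨m, n, rfl⟩ := hDI2 g
  have hs : ∀ (s : V) (x y : ℤ), co M s p = 0 → co M s q = 0 →
      (Pi.single none 1 + (Pi.single (some p) x + Pi.single (some q) y) : Option V → ℤ) none +
      ∑ t, co M s t * (Pi.single none 1 + (Pi.single (some p) x + Pi.single (some q) y) :
        Option V → ℤ) (some t) = 1 := by
    intro s x y h2 h3
    have h4 : ∀ t, co M s t * (Pi.single none 1 + (Pi.single (some p) x + Pi.single (some q) y) :
        Option V → ℤ) (some t) =
        co M s t * (Pi.single (some p) x + Pi.single (some q) y : Option V → ℤ) (some t) := by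
      intro t
      rw [Pi.add_apply, Pi.single_eq_of_ne (by simp), zero_add]
    rw [Finset.sum_congr rfl fun t _ => h4 t, sum_two, h2, h3]
    rw [Pi.add_apply, Pi.add_apply, Pi.single_eq_same, Pi.single_eq_of_ne (by simp),
      Pi.single_eq_of_ne (by simp)]
    simp
  have hp : ∀ y x : ℤ, ρ (gen M p)
      (Pi.single none 1 + (Pi.single (some p) x + Pi.single (some q) y) : Option V → ℤ) =
      Pi.single none 1 + (Pi.single (some p) (x + 1) + Pi.single (some q) y) := by
    intro y x
    rw [hρ, hs p x y (co_self M p) (co_two M h1), Pi.single_add]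
    abel
  have hq : ∀ x y : ℤ, ρ (gen M q)
      (Pi.single none 1 + (Pi.single (some p) x + Pi.single (some q) y) : Option V → ℤ) =
      Pi.single none 1 + (Pi.single (some p) x + Pi.single (some q) (y + 1)) := by
    intro x y
    rw [hρ, hs q x y (co_two M h1') (co_self M q), Pi.single_add]
    abel
  have h5 := zpow_shift (ρ (gen M q)) (fun y => Pi.single none 1 +
    (Pi.single (some p) 0 + Pi.single (some q) y)) (hq 0) n 0
  have h6 := zpow_shift (ρ (gen M p)) (fun x => Pi.single none 1 +
    (Pi.single (some p) x + Pi.single (some q) (0 + n))) (hp (0 + n)) m 0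
  rw [map_mul, map_mul, map_zpow, map_zpow, map_zpow, map_zpow, hb, hb'] at hg
  have h7 := congrArg (fun T : (Option V → ℤ) ≃ₗ[ℤ] (Option V → ℤ) => T (Pi.single none 1 +
    (Pi.single (some p) 0 + Pi.single (some q) 0))) hg
  simp only [LinearEquiv.mul_apply] at h7
  rw [h5, h6] at h7
  have hne : (some p : Option V) ≠ some q := fun h => hpq (Option.some_injective _ h)
  change _ = (Pi.single none 1 + (Pi.single (some p) 0 + Pi.single (some q) 0) : Option V → ℤ)
    at h7
  have h8 := congrFun h7 (some p)
  have h9 := congrFun h7 (some q)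
  rw [Pi.add_apply, Pi.add_apply, Pi.add_apply, Pi.add_apply, Pi.single_eq_same,
    Pi.single_eq_same, Pi.single_eq_of_ne hne, Pi.single_eq_of_ne hne,
    Pi.single_eq_of_ne (by simp)] at h8
  rw [Pi.add_apply, Pi.add_apply, Pi.add_apply, Pi.add_apply, Pi.single_eq_same,
    Pi.single_eq_same, Pi.single_eq_of_ne hne.symm, Pi.single_eq_of_ne hne.symm,
    Pi.single_eq_of_ne (by simp)] at h9
  have hm : m = 0 := by omega
  have hn : n = 0 := by omega
  rw [hm, hn, zpow_zero, zpow_zero, mul_one]

/-- the representation is injective on two generators -/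
theorem inj_two (hD0 : S_DIH 0) (hD3 : S_DIH 3) (hD4 : S_DIH 4) (hD6 : S_DIH 6) (hDI2 : S_DI2)
    {V : Type} [Fintype V] [LinearOrder V] {M : V → V → ℕ} (hsym : ∀ s t, M s t = M t s)
    (hlab : ∀ s t, s ≠ t → M s t = 0 ∨ M s t = 2 ∨ M s t = 3 ∨ M s t = 4 ∨ M s t = 6)
    {p q : V} (hpq : p ≠ q)
    (ρ : Art V M →* ((Option V → ℤ) ≃ₗ[ℤ] (Option V → ℤ)))
    (hρ : ∀ s w, ρ (gen M s) w = w + Pi.single (some s) (w none + ∑ t, co M s t * w (some t)))
    (len : Art V M →* Multiplicative ℤ) (hlen : ∀ s, len (gen M s) = Multiplicative.ofAdd 1)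
    (ι : D (M p q) →* Art V M) (hb : ι (gen _ false) = gen M p)
    (hb' : ι (gen _ true) = gen M q) (g : D (M p q)) (hg : ρ (ι g) = 1)
    (hg' : len (ι g) = 1) : g = 1 := by
  have main : M p q ≠ 2 → S_DIH (M p q) → g = 1 := by
    intro h2 hD
    rcases lt_or_gt_of_ne hpq with h | h
    · exact inj_aux hD h rfl (hsym q p) h2 ρ hρ len hlen ι false hb hb' g hg hg'
    · exact inj_aux hD h (hsym q p) rfl h2 ρ hρ len hlen ι true hb' hb g hg hg'
  rcases hlab p q hpq with h | h | h | h | h
  · exact main (by omega) (h ▸ hD0)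
  · clear main
    have h' : M q p = 2 := (hsym q p).trans h
    revert ι g
    generalize hm : M p q = m at *
    subst h
    intro ι hb hb' g hg _
    exact inj_two2 hDI2 hpq hm h' ρ hρ ι hb hb' g hg
  · exact main (by omega) (h ▸ hD3)
  · exact main (by omega) (h ▸ hD4)
  · exact main (by omega) (h ▸ hD6)

end Pool.Agent.Y462.AR
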