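import Pool.Agent.Y462.AR.Stm2
import Pool.Agent.Y462.AR.Glue

/-!
# Artin groups with arbitrary labels: the representation is injective on two generators

Owner helper462.
-/

set_option autoImplicit false

namespace Pool.Agent.Y462.AR.G

open Pool.Agent.Y462.AR
open Pool.Agent.Y462.AR.Glue (Crys Target)
open Pool.Agent.Y462.SS (Closed)

section Lin

variable {V : Type} [Fintype V] [LinearOrder V] (M : V → V → ℕ)

theorem sum_two (s p q : V) (x y : ℝ) :
    ∑ t, cg M s t * (Pi.single (some p) x + Pi.single (some q) y : Option V → ℝ) (some t) =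
      cg M s p * x + cg M s q * y := by
  have h : ∀ (r : V) (z : ℝ), ∑ t, cg M s t * (Pi.single (some r) z : Option V → ℝ) (some t) =
      cg M s r * z := by
    intro r z
    rw [Finset.sum_eq_single r]
    · rw [Pi.single_eq_same]
    · intro t _ ht
      rw [Pi.single_eq_of_ne, mul_zero]
      intro h
      exact ht (Option.some_injective _ h)
    · intro h
      exact absurd (Finset.mem_univ r) h
  rw [← h p x, ← h q y, ← Finset.sum_add_distrib]
  refine Finset.sum_congr rfl fun t _ => ?_
  rw [Pi.add_apply, mul_add]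

omit [Fintype V] in
theorem cg_self (s : V) : cg M s s = 0 := by
  simp [cg]

omit [Fintype V] in
theorem cg_lt {s t : V} (h : s < t) : cg M s t = lam (M s t) := by
  simp [cg, h.ne, h]

omit [Fintype V] in
theorem cg_gt {s t : V} (h : s < t) : cg M t s = - lam (M t s) := by
  simp [cg, h.ne', not_lt_of_gt h]

omit [Fintype V] in
theorem cg_two {s t : V} (h2 : M s t = 2) : cg M s t = 0 := by
  have h3 : lam 2 = 0 := by simp [lam]
  unfold cg
  split_ifs <;> simp [h3, h2]

end Lin

/-- the representation is injective on two generators, label not `2` -/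
theorem inj_aux {m : ℕ} (hD : S_DG m) {V : Type} [Fintype V] [LinearOrder V] {M : V → V → ℕ}
    {p q : V} (hpq : p < q) (h1 : M p q = m) (h1' : M q p = m)
    (ρ : Art V M →* ((Option V → ℝ) ≃ₗ[ℝ] (Option V → ℝ)))
    (hρ : ∀ s w, ρ (gen M s) w = w + Pi.single (some s) (w none + ∑ t, cg M s t * w (some t)))
    (len : Art V M →* Multiplicative ℤ) (hlen : ∀ s, len (gen M s) = Multiplicative.ofAdd 1)
    (ι : D m →* Art V M) (b : Bool) (hb : ι (gen _ b) = gen M p)
    (hb' : ι (gen _ (!b)) = gen M q) (g : D m) (hg : ρ (ι g) = 1) (hg' : len (ι g) = 1) :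
    g = 1 := by
  obtain ⟨φ, h2, h3, h4⟩ := hD b
  have key : ∀ g : D m, ∀ v : ℝ × ℝ,
      ρ (ι g) (Pi.single (some p) v.1 + Pi.single (some q) v.2 : Option V → ℝ) =
        Pi.single (some p) (φ g v).1 + Pi.single (some q) (φ g v).2 := by
    let S : Subgroup (D m) :=
      { carrier := {g | ∀ v : ℝ × ℝ,
          ρ (ι g) (Pi.single (some p) v.1 + Pi.single (some q) v.2 : Option V → ℝ) =
            Pi.single (some p) (φ g v).1 + Pi.single (some q) (φ g v).2}
        one_mem' := fun v => by
          rw [map_one, map_one, map_one]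
          rfl
        mul_mem' := by
          intro a c ha hc v
          rw [map_mul, map_mul, map_mul, LinearEquiv.mul_apply, hc v, ha]
          rfl
        inv_mem' := by
          intro a ha v
          have h5 := ha (φ a⁻¹ v)
          have h6 : φ a (φ a⁻¹ v) = v := by
            rw [← Equiv.Perm.mul_apply, ← map_mul, mul_inv_cancel, map_one, Equiv.Perm.one_apply]
          rw [h6] at h5
          rw [← h5, ← LinearEquiv.mul_apply, ← map_mul, ← map_mul, inv_mul_cancel, map_one,
            map_one]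
          rfl }
    have hS : ∀ c, gen (fun _ _ => m) c ∈ S := by
      have hp : gen (fun _ _ => m) b ∈ S := by
        rintro ⟨x, y⟩
        rw [hb, hρ, sum_two, h2, cg_self, cg_lt M hpq, h1]
        change _ = (Pi.single (some p) (x + lam m * y) + Pi.single (some q) y : Option V → ℝ)
        rw [Pi.add_apply, Pi.single_eq_of_ne (by simp), Pi.single_eq_of_ne (by simp)]
        simp only [zero_mul, zero_add]
        rw [Pi.single_add]
        abel
      have hq : gen (fun _ _ => m) (!b) ∈ S := by
        rintro ⟨x, y⟩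
        rw [hb', hρ, sum_two, h3, cg_self, cg_gt M hpq, h1']
        change _ = (Pi.single (some p) x + Pi.single (some q) (y - lam m * x) : Option V → ℝ)
        rw [Pi.add_apply, Pi.single_eq_of_ne (by simp), Pi.single_eq_of_ne (by simp)]
        simp only [zero_mul, add_zero, zero_add]
        rw [sub_eq_add_neg, ← neg_mul, Pi.single_add]
        abel
      intro c
      rcases Bool.eq_or_eq_not c b with rfl | rfl
      · exact hp
      · exact hq
    intro g
    exact mem_of_gen S hS g
  refine h4 (len.comp ι) ?_ g ?_ hg'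
  · intro c
    rcases Bool.eq_or_eq_not c b with rfl | rfl
    · rw [MonoidHom.comp_apply, hb, hlen]
    · rw [MonoidHom.comp_apply, hb', hlen]
  · ext v
    · have h5 := congrFun (key g v) (some p)
      rw [hg] at h5
      have hne : (some p : Option V) ≠ some q := fun h => hpq.ne (Option.some_injective _ h)
      change (Pi.single (some p) v.1 + Pi.single (some q) v.2 : Option V → ℝ) (some p) = _ at h5
      rw [Pi.add_apply, Pi.add_apply, Pi.single_eq_same, Pi.single_eq_same,
        Pi.single_eq_of_ne hne, Pi.single_eq_of_ne hne, add_zero, add_zero] at h5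
      exact h5.symm
    · have h5 := congrFun (key g v) (some q)
      rw [hg] at h5
      have hne : (some q : Option V) ≠ some p := fun h => hpq.ne' (Option.some_injective _ h)
      change (Pi.single (some p) v.1 + Pi.single (some q) v.2 : Option V → ℝ) (some q) = _ at h5
      rw [Pi.add_apply, Pi.add_apply, Pi.single_eq_same, Pi.single_eq_same,
        Pi.single_eq_of_ne hne, Pi.single_eq_of_ne hne, zero_add, zero_add] at h5
      exact h5.symm

theorem zpow_shift {W : Type} [AddCommGroup W] [Module ℝ W] (T : W ≃ₗ[ℝ] W) (f : ℤ → W)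
    (h : ∀ x, T (f x) = f (x + 1)) (n : ℤ) : ∀ x, (T ^ n) (f x) = f (x + n) := by
  induction n using Int.induction_on with
  | zero => intro x; rw [zpow_zero, add_zero]; rfl
  | succ n ih =>
    intro x
    rw [zpow_add_one, LinearEquiv.mul_apply, h, ih]
    congr 1
    ring
  | pred n ih =>
    intro x
    have h1 : T⁻¹ (f x) = f (x - 1) := by
      have h2 := h (x - 1)
      rw [sub_add_cancel] at h2
      rw [← h2, ← LinearEquiv.mul_apply, inv_mul_cancel]
      rfl
    rw [zpow_sub_one, LinearEquiv.mul_apply, h1, ih]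
    congr 1
    ring

/-- the representation is injective on two generators, label `2` -/
theorem inj_two2 (hDI2 : S_DI2) {V : Type} [Fintype V] [LinearOrder V] {M : V → V → ℕ}
    {p q : V} (hpq : p ≠ q) (h1 : M p q = 2) (h1' : M q p = 2)
    (ρ : Art V M →* ((Option V → ℝ) ≃ₗ[ℝ] (Option V → ℝ)))
    (hρ : ∀ s w, ρ (gen M s) w = w + Pi.single (some s) (w none + ∑ t, cg M s t * w (some t)))
    (ι : D 2 →* Art V M) (hb : ι (gen _ false) = gen M p)
    (hb' : ι (gen _ true) = gen M q) (g : D 2) (hg : ρ (ι g) = 1) : g = 1 := by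
  obtain ⟨m, n, rfl⟩ := hDI2 g
  have hs : ∀ (s : V) (x y : ℝ), cg M s p = 0 → cg M s q = 0 →
      (Pi.single none 1 + (Pi.single (some p) x + Pi.single (some q) y) : Option V → ℝ) none +
      ∑ t, cg M s t * (Pi.single none 1 + (Pi.single (some p) x + Pi.single (some q) y) :
        Option V → ℝ) (some t) = 1 := by
    intro s x y h2 h3
    have h4 : ∀ t, cg M s t * (Pi.single none 1 + (Pi.single (some p) x + Pi.single (some q) y) :
        Option V → ℝ) (some t) =
        cg M s t * (Pi.single (some p) x + Pi.single (some q) y : Option V → ℝ) (some t) := by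
      intro t
      rw [Pi.add_apply, Pi.single_eq_of_ne (by simp), zero_add]
    rw [Finset.sum_congr rfl fun t _ => h4 t, sum_two, h2, h3]
    rw [Pi.add_apply, Pi.add_apply, Pi.single_eq_same, Pi.single_eq_of_ne (by simp),
      Pi.single_eq_of_ne (by simp)]
    simp
  have hp : ∀ y x : ℤ, ρ (gen M p)
      (Pi.single none 1 + (Pi.single (some p) (x : ℝ) + Pi.single (some q) (y : ℝ)) :
        Option V → ℝ) =
      Pi.single none 1 + (Pi.single (some p) ((x + 1 : ℤ) : ℝ) + Pi.single (some q) (y : ℝ)) := by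
    intro y x
    rw [hρ, hs p x y (cg_self M p) (cg_two M h1), Int.cast_add, Int.cast_one, Pi.single_add]
    abel
  have hq : ∀ x y : ℤ, ρ (gen M q)
      (Pi.single none 1 + (Pi.single (some p) (x : ℝ) + Pi.single (some q) (y : ℝ)) :
        Option V → ℝ) =
      Pi.single none 1 + (Pi.single (some p) (x : ℝ) + Pi.single (some q) ((y + 1 : ℤ) : ℝ)) := by
    intro x y
    rw [hρ, hs q x y (cg_two M h1') (cg_self M q), Int.cast_add, Int.cast_one, Pi.single_add]
    abel
  have h5 := zpow_shift (ρ (gen M q)) (fun y : ℤ => Pi.single none 1 +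
    (Pi.single (some p) ((0 : ℤ) : ℝ) + Pi.single (some q) (y : ℝ))) (hq 0) n 0
  have h6 := zpow_shift (ρ (gen M p)) (fun x : ℤ => Pi.single none 1 +
    (Pi.single (some p) (x : ℝ) + Pi.single (some q) ((0 + n : ℤ) : ℝ))) (hp (0 + n)) m 0
  rw [map_mul, map_mul, map_zpow, map_zpow, map_zpow, map_zpow, hb, hb'] at hg
  have h7 := congrArg (fun T : (Option V → ℝ) ≃ₗ[ℝ] (Option V → ℝ) => T (Pi.single none 1 +
    (Pi.single (some p) ((0 : ℤ) : ℝ) + Pi.single (some q) ((0 : ℤ) : ℝ)))) hg
  simp only [LinearEquiv.mul_apply] at h7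
  rw [h5, h6] at h7
  have hne : (some p : Option V) ≠ some q := fun h => hpq (Option.some_injective _ h)
  change _ = (Pi.single none 1 + (Pi.single (some p) ((0 : ℤ) : ℝ) +
    Pi.single (some q) ((0 : ℤ) : ℝ)) : Option V → ℝ) at h7
  have h8 := congrFun h7 (some p)
  have h9 := congrFun h7 (some q)
  rw [Pi.add_apply, Pi.add_apply, Pi.add_apply, Pi.add_apply, Pi.single_eq_same,
    Pi.single_eq_same, Pi.single_eq_of_ne hne, Pi.single_eq_of_ne hne,
    Pi.single_eq_of_ne (by simp)] at h8
  rw [Pi.add_apply, Pi.add_apply, Pi.add_apply, Pi.add_apply, Pi.single_eq_same,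
    Pi.single_eq_same, Pi.single_eq_of_ne hne.symm, Pi.single_eq_of_ne hne.symm,
    Pi.single_eq_of_ne (by simp)] at h9
  have hm : m = 0 := by
    have h10 : (m : ℝ) = 0 := by
      rw [Int.cast_add] at h8
      linarith
    exact_mod_cast h10
  have hn : n = 0 := by
    have h10 : (n : ℝ) = 0 := by
      rw [Int.cast_add] at h9
      linarith
    exact_mod_cast h10
  rw [hm, hn, zpow_zero, zpow_zero, mul_one]

/-- the representation is injective on two generators -/
theorem inj_two (hDG : ∀ m, m ≠ 1 → m ≠ 2 → S_DG m) (hDI2 : S_DI2)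
    {V : Type} [Fintype V] [LinearOrder V] {M : V → V → ℕ} (hM : Crys (fun m => m ≠ 1) M)
    {p q : V} (hpq : p ≠ q)
    (ρ : Art V M →* ((Option V → ℝ) ≃ₗ[ℝ] (Option V → ℝ)))
    (hρ : ∀ s w, ρ (gen M s) w = w + Pi.single (some s) (w none + ∑ t, cg M s t * w (some t)))
    (len : Art V M →* Multiplicative ℤ) (hlen : ∀ s, len (gen M s) = Multiplicative.ofAdd 1)
    (ι : D (M p q) →* Art V M) (hb : ι (gen _ false) = gen M p)
    (hb' : ι (gen _ true) = gen M q) (g : D (M p q)) (hg : ρ (ι g) = 1)
    (hg' : len (ι g) = 1) : g = 1 := by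
  by_cases h2 : M p q = 2
  · have h' : M q p = 2 := (hM.1 q p).trans h2
    revert ι g
    generalize hm : M p q = m at *
    subst h2
    intro ι hb hb' g hg _
    exact inj_two2 hDI2 hpq hm h' ρ hρ ι hb hb' g hg
  · have hD := hDG (M p q) (hM.2 p q hpq) h2
    rcases lt_or_gt_of_ne hpq with h | h
    · exact inj_aux hD h rfl (hM.1 q p) ρ hρ len hlen ι false hb hb' g hg hg'
    · exact inj_aux hD h (hM.1 q p) rfl ρ hρ len hlen ι true hb' hb g hg hg'

/-- the homomorphisms to groups in the class -/
theorem target (hDG : ∀ m, m ≠ 1 → m ≠ 2 → S_DG m) (hDI2 : S_DI2) (hACT : S_ACTG) (hLAT : S_LAT)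
    (C : ∀ (G : Type) [Group G], Prop) (hC : Closed C)
    (hGL : ∀ n : ℕ, C (Matrix.GeneralLinearGroup (Fin n) ℤ)) : Target C (fun m => m ≠ 1) := by
  intro V _ M hM
  have := Fintype.ofFinite V
  let _ : LinearOrder V := LinearOrder.lift' (Fintype.equivFin V) (Fintype.equivFin V).injective
  obtain ⟨n, hn⟩ : ∃ n, ∀ s t, M s t ≤ n := by
    obtain ⟨n, hn⟩ := (Set.finite_range (fun x : V × V => M x.1 x.2)).bddAbove
    exact ⟨n, fun s t => hn ⟨(s, t), rfl⟩⟩
  obtain ⟨ρ, hρ⟩ := hACT V M n hM.1 hM.2 (fun s t _ => hn s t)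
  obtain ⟨len, hlen⟩ := t_lift V (Multiplicative ℤ) M (fun _ => Multiplicative.ofAdd 1)
    (fun _ _ _ => rfl)
  refine ⟨Stab n V × Multiplicative ℤ, inferInstance, ρ.prod len,
    hC.prod _ _ (hLAT C hC hGL n V) hC.int, ?_⟩
  intro s t hst ι h1 h2
  rw [injective_iff_map_eq_one]
  intro g hg
  have h3 := Prod.ext_iff.1 hg
  exact inj_two hDG hDI2 hM hst ((Stab n V).subtype.comp ρ) hρ len hlen ι h1 h2 g
    (congrArg Subtype.val h3.1) h3.2

end Pool.Agent.Y462.AR.G
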