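import Pool.Agent.Y462.PA.Def
import Mathlib.GroupTheory.PresentedGroup
import Mathlib.LinearAlgebra.Matrix.GeneralLinearGroup.Defs
import Mathlib.LinearAlgebra.GeneralLinearGroup.Basic

/-!
# Artin groups glued along two generators: definitions and statements

Owner helper462.
-/

set_option autoImplicit false

namespace Pool.Agent.Y462.AR

open Pool.Agent.Y462.PA (Am)
open Pool.Agent.Y462.SS (Closed)
open Pool.Agent.Y110.FJ (ClosedE)

/-- the alternating product `x * y * x * ...` with `n` factors -/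
def alt {G : Type} [Group G] : ℕ → G → G → G
  | 0, _, _ => 1
  | n + 1, x, y => x * alt n y x

/-- the relations of the Artin group with the labels `M` (`0` means that there is no relation) -/
def rels (V : Type) (M : V → V → ℕ) : Set (FreeGroup V) :=
  {r | ∃ s t : V, M s t ≠ 0 ∧
    r = alt (M s t) (FreeGroup.of s) (FreeGroup.of t) *
      (alt (M s t) (FreeGroup.of t) (FreeGroup.of s))⁻¹}

/-- the Artin group -/
abbrev Art (V : Type) (M : V → V → ℕ) : Type := PresentedGroup (rels V M)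

/-- the generators -/
def gen {V : Type} (M : V → V → ℕ) (s : V) : Art V M := PresentedGroup.of s

/-- the dihedral Artin group -/
abbrev D (m : ℕ) : Type := Art Bool (fun _ _ => m)

/-- the numbers `κ` -/
def kap (m : ℕ) : ℤ := if m = 0 then 4 else if m = 2 then 0 else if m = 3 then 1
  else if m = 4 then 2 else 3

/-- homomorphisms on Artin groups -/
def S_LIFT : Prop := ∀ (V G : Type) [Group G] (M : V → V → ℕ) (f : V → G),
  (∀ s t, M s t ≠ 0 → alt (M s t) (f s) (f t) = alt (M s t) (f t) (f s)) →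
  ∃ F : Art V M →* G, ∀ s, F (gen M s) = f s

/-- the relations hold in the Artin group -/
def S_REL : Prop := ∀ (V : Type) (M : V → V → ℕ) (s t : V), M s t ≠ 0 →
  alt (M s t) (gen M s) (gen M t) = alt (M s t) (gen M t) (gen M s)

/-- the action on `(ℤ × ℤ) × ℤ` given by an action on `ℤ × ℤ` and the length -/
def act {G : Type} [Group G] (φ : G →* Equiv.Perm (ℤ × ℤ)) (len : G →* Multiplicative ℤ) :
    G →* Equiv.Perm ((ℤ × ℤ) × ℤ) where
  toFun g :=
    { toFun := fun v => (φ g v.1, v.2 + Multiplicative.toAdd (len g))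
      invFun := fun v => (φ g⁻¹ v.1, v.2 - Multiplicative.toAdd (len g))
      left_inv := fun v => by simp
      right_inv := fun v => by simp }
  map_one' := by
    ext v <;> simp
  map_mul' g h := by
    ext v
    · simp
    · simp
    · simp only [Equiv.coe_fn_mk, map_mul, toAdd_mul, Equiv.Perm.mul_apply]
      ring

/-- the coefficients of the representation -/
def co {V : Type} [LinearOrder V] (M : V → V → ℕ) (s t : V) : ℤ :=
  if s = t then 0 else if s < t then (if M s t = 2 then 0 else 1) else - kap (M s t)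

/-- **AR-ACT** the representation -/
def S_ACT : Prop := ∀ (V : Type) [Fintype V] [LinearOrder V] (M : V → V → ℕ),
  (∀ s t, M s t = M t s) → (∀ s t, s ≠ t → M s t = 0 ∨ M s t = 2 ∨ M s t = 3 ∨ M s t = 4 ∨
    M s t = 6) →
  ∃ ρ : Art V M →* ((Option V → ℤ) ≃ₗ[ℤ] (Option V → ℤ)), ∀ s w,
    ρ (gen M s) w = w + Pi.single (some s) (w none + ∑ t, co M s t * w (some t))

/-- **AR-DIH** the dihedral groups, for one label -/
def S_DIH (m : ℕ) : Prop := ∀ b : Bool, ∃ φ : D m →* Equiv.Perm (ℤ × ℤ),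
  (∀ x y, φ (gen _ b) (x, y) = (x + y, y)) ∧
  (∀ x y, φ (gen _ (!b)) (x, y) = (x, y - kap m * x)) ∧
  ∀ (len : D m →* Multiplicative ℤ), (∀ c, len (gen _ c) = Multiplicative.ofAdd 1) →
    ∀ g, φ g = 1 → len g = 1 → g = 1

/-- **AR-DI2** the label `2` -/
def S_DI2 : Prop := ∀ g : D 2, ∃ p q : ℤ, g = gen _ false ^ p * gen _ true ^ q

/-- **AR-CGL** the general linear groups -/
def S_CGL : Prop := ∀ C : ∀ (G : Type) [Group G], Prop, Closed C →
  (∀ n : ℕ, C (Matrix.GeneralLinearGroup (Fin n) ℤ)) → ∀ (V : Type) [Fintype V] [DecidableEq V],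
    C ((Option V → ℤ) ≃ₗ[ℤ] (Option V → ℤ))

/-- **AR-AMA** the amalgamated product -/
def S_AMA : Prop := ∀ (V : Type) (M : V → V → ℕ) (V1 V2 : Set V) (s0 t0 : V)
  (h1 : s0 ∈ V1) (h2 : s0 ∈ V2) (h3 : t0 ∈ V1) (h4 : t0 ∈ V2), (∀ s t, M s t = M t s) →
  V1 ∪ V2 = Set.univ → V1 ∩ V2 = {s0, t0} → (∀ s ∈ V1 \ V2, ∀ t ∈ V2 \ V1, M s t = 0) →
  ∀ (α : D (M s0 t0) →* Art V1 (fun s t => M s t)) (β : D (M s0 t0) →* Art V2 (fun s t => M s t)),
    α (gen _ false) = gen _ ⟨s0, h1⟩ → α (gen _ true) = gen _ ⟨t0, h3⟩ →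
    β (gen _ false) = gen _ ⟨s0, h2⟩ → β (gen _ true) = gen _ ⟨t0, h4⟩ →
    ∃ j : Art V M →* Am α β, Function.Injective j

end Pool.Agent.Y462.AR
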