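import Pool.Agent.Y462.AR.Tool
import Mathlib.Analysis.SpecialFunctions.Trigonometric.Basic
import Mathlib.Algebra.Algebra.Subalgebra.Basic
import Mathlib.RingTheory.Adjoin.Basic

/-!
# Artin groups with arbitrary labels glued along two generators: statements

Owner helper462.
-/

set_option autoImplicit false

namespace Pool.Agent.Y462.AR

open Pool.Agent.Y462.PA (Am)
open Pool.Agent.Y462.SS (Closed)
open Pool.Agent.Y110.FJ (ClosedE)

/-- the number `2 cos (π / m)` (it is `2` for `m = 0` and `0` for `m = 2`) -/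
noncomputable def lam (m : ℕ) : ℝ := 2 * Real.cos (Real.pi / m)

/-- the quotients of sines -/
noncomputable def U (m : ℕ) (j : ℤ) : ℝ := Real.sin (j * (Real.pi / m)) / Real.sin (Real.pi / m)

/-- **AR2-U** the values of the quotients of sines -/
def S_U : Prop := ∀ m : ℕ, 2 ≤ m → (∀ j, U m (j + 1) = lam m * U m j - U m (j - 1)) ∧ U m 0 = 0 ∧
  U m 1 = 1 ∧ U m m = 0 ∧ (∀ j : ℤ, 0 < j → j < m → 1 ≤ U m j) ∧
  (∀ j, U m (m + j) = - U m j) ∧ (∀ j, U m (-j) = - U m j) ∧ (3 ≤ m → 1 ≤ lam m)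

/-- the first map -/
def tau (l : ℝ) : Equiv.Perm (ℝ × ℝ) where
  toFun v := (v.1 + l * v.2, v.2)
  invFun v := (v.1 - l * v.2, v.2)
  left_inv v := by simp
  right_inv v := by simp

/-- the second map -/
def sig (l : ℝ) : Equiv.Perm (ℝ × ℝ) where
  toFun v := (v.1, v.2 - l * v.1)
  invFun v := (v.1, v.2 + l * v.1)
  left_inv v := by simp
  right_inv v := by simp

/-- **AR2-POW** the powers of the product, and the braid relation -/
def S_POW : Prop := ∀ m : ℕ, 2 ≤ m → (∀ (i : ℕ) (p q : ℝ), ((tau (lam m) * sig (lam m)) ^ i) (p, q) =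
    ((-1) ^ i * (U m (2 * i + 1) * p - U m (2 * i) * q),
      (-1) ^ i * (U m (2 * i) * p - U m (2 * i - 1) * q))) ∧
  alt m (tau (lam m)) (sig (lam m)) = alt m (sig (lam m)) (tau (lam m))

/-- the action on `(ℝ × ℝ) × ℤ` given by an action on `ℝ × ℝ` and the length -/
def actR {G : Type} [Group G] (φ : G →* Equiv.Perm (ℝ × ℝ)) (len : G →* Multiplicative ℤ) :
    G →* Equiv.Perm ((ℝ × ℝ) × ℤ) where
  toFun g :=
    { toFun := fun v => (φ g v.1, v.2 + Multiplicative.toAdd (len g))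
      invFun := fun v => (φ g⁻¹ v.1, v.2 - Multiplicative.toAdd (len g))
      left_inv := fun v => by simp
      right_inv := fun v => by simp }
  map_one' := by
    ext v <;> simp
  map_mul' g h := by
    ext v
    · simp
    · simp
    · simp only [Equiv.coe_fn_mk, map_mul, toAdd_mul, Equiv.Perm.mul_apply]
      ring

/-- **AR2-PP** ping-pong for amalgamated products, with a real valued function -/
def S_PPR : Prop := ∀ (K A B Ω : Type) [Group K] [Group A] [Group B] (α : K →* A) (β : K →* B)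
  (f : Am α β →* Equiv.Perm Ω) (XA XB : Set Ω) (D : Ω → ℝ),
  Disjoint XA XB → XA.Nonempty → XB.Nonempty →
  (∀ a, a ∉ α.range → ∀ v ∈ XB, f (Am.inl α β a) v ∈ XA ∧ D v ≤ D (f (Am.inl α β a) v)) →
  (∀ b, b ∉ β.range → ∀ v ∈ XA, f (Am.inr α β b) v ∈ XB ∧ D v < D (f (Am.inr α β b) v)) →
  (∀ c, ∀ v ∈ XA, f (Am.inl α β (α c)) v ∈ XA ∧ D (f (Am.inl α β (α c)) v) = D v) →
  (∀ c, ∀ v ∈ XB, f (Am.inl α β (α c)) v ∈ XB ∧ D (f (Am.inl α β (α c)) v) = D v) →
  (∀ c, f (Am.inl α β (α c)) = 1 → c = 1) → Function.Injective f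

/-- **AR2-DG** the dihedral groups, for one label -/
def S_DG (m : ℕ) : Prop := ∀ b : Bool, ∃ φ : D m →* Equiv.Perm (ℝ × ℝ),
  φ (gen _ b) = tau (lam m) ∧ φ (gen _ (!b)) = sig (lam m) ∧
  ∀ (len : D m →* Multiplicative ℤ), (∀ c, len (gen _ c) = Multiplicative.ofAdd 1) →
    ∀ g, φ g = 1 → len g = 1 → g = 1

/-- the ring generated by the numbers `lam m` with `m ≤ n` -/
def RR (n : ℕ) : Subalgebra ℤ ℝ := Algebra.adjoin ℤ {x | ∃ m ≤ n, x = lam m}

/-- the stabilizer of the lattice -/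
def Stab (n : ℕ) (V : Type) : Subgroup ((Option V → ℝ) ≃ₗ[ℝ] (Option V → ℝ)) where
  carrier := {g | ∀ w, (∀ i, w i ∈ RR n) ↔ ∀ i, g w i ∈ RR n}
  one_mem' := fun w => Iff.rfl
  mul_mem' := by
    intro g h hg hh w
    exact (hh w).trans (hg (h w))
  inv_mem' := by
    intro g hg w
    have h1 := hg (g⁻¹ w)
    have h2 : g (g⁻¹ w) = w := by
      rw [← LinearEquiv.mul_apply, mul_inv_cancel]
      rfl
    rw [h2] at h1
    exact h1.symm

/-- **AR2-LAT** the stabilizers are in the class -/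
def S_LAT : Prop := ∀ C : ∀ (G : Type) [Group G], Prop, Closed C →
  (∀ n : ℕ, C (Matrix.GeneralLinearGroup (Fin n) ℤ)) → ∀ (n : ℕ) (V : Type) [Fintype V],
    C (Stab n V)

/-- the coefficients of the representation -/
noncomputable def cg {V : Type} [LinearOrder V] (M : V → V → ℕ) (s t : V) : ℝ :=
  if s = t then 0 else if s < t then lam (M s t) else - lam (M s t)

/-- **AR2-ACT** the representation -/
def S_ACTG : Prop := ∀ (V : Type) [Fintype V] [LinearOrder V] (M : V → V → ℕ) (n : ℕ),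
  (∀ s t, M s t = M t s) → (∀ s t, s ≠ t → M s t ≠ 1) → (∀ s t, s ≠ t → M s t ≤ n) →
  ∃ ρ : Art V M →* Stab n V, ∀ s w,
    (ρ (gen M s)).1 w = w + Pi.single (some s) (w none + ∑ t, cg M s t * w (some t))

end Pool.Agent.Y462.AR
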