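import Pool.Agent.Y462.AR.Stm

/-!
# Artin groups: tools

Owner helper462.
-/

set_option autoImplicit false

namespace Pool.Agent.Y462.AR

theorem map_alt {G H : Type} [Group G] [Group H] (f : G →* H) (n : ℕ) (x y : G) :
    f (alt n x y) = alt n (f x) (f y) := by
  induction n generalizing x y with
  | zero => exact map_one f
  | succ n ih => rw [alt, alt, map_mul, ih]

theorem t_lift : S_LIFT := by
  intro V G _ M f h
  have h1 : ∀ r ∈ rels V M, FreeGroup.lift f r = 1 := by
    rintro _ ⟨s, t, hst, rfl⟩
    rw [map_mul, map_inv, map_alt, map_alt, FreeGroup.lift_apply_of, FreeGroup.lift_apply_of,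
      h s t hst, mul_inv_cancel]
  exact ⟨PresentedGroup.toGroup h1, fun s => PresentedGroup.toGroup.of h1⟩

theorem t_rel : S_REL := by
  intro V M s t h
  have h1 : PresentedGroup.mk (rels V M) (alt (M s t) (FreeGroup.of s) (FreeGroup.of t) *
      (alt (M s t) (FreeGroup.of t) (FreeGroup.of s))⁻¹) = 1 :=
    PresentedGroup.one_of_mem ⟨s, t, h, rfl⟩
  rw [map_mul, map_inv, map_alt, map_alt, mul_inv_eq_one] at h1
  exact h1

/-- two homomorphisms which agree on the generators are equal -/
theorem hom_ext {V G : Type} [Group G] {M : V → V → ℕ} {f g : Art V M →* G}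
    (h : ∀ s, f (gen M s) = g (gen M s)) : f = g :=
  PresentedGroup.ext h

/-- a subgroup which contains the generators is everything -/
theorem mem_of_gen {V : Type} {M : V → V → ℕ} (S : Subgroup (Art V M))
    (h : ∀ s, gen M s ∈ S) (g : Art V M) : g ∈ S := by
  have h1 : Subgroup.closure (Set.range (PresentedGroup.of (rels := rels V M))) ≤ S := by
    rw [Subgroup.closure_le]
    rintro _ ⟨s, rfl⟩
    exact h s
  rw [PresentedGroup.closure_range_of] at h1
  exact h1 (Subgroup.mem_top g)

end Pool.Agent.Y462.AR
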